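import Pool.Agent.Lib.MP_e130ca_lc.Main

namespace Pool.Agent.Results.MP_e130ca_lc.NoOneTapeLearner

open Pool.Agent.Lib.MP_e130ca_lc

/-- The family `L e = {x : x is a word over 0, 1, 2 with the length of e and x ≠ e}`, indexed by
the nonempty words `e` over `0, 1, 2, 3`, is automatic and learnable, it satisfies the tell-tale
condition, and no linear-time learner with one additional work-tape learns it. -/
theorem result : IsAutomatic famI famL ∧ Learnable famI famL ∧ TellTale famI famL ∧
    ¬ ∃ T : Machine (Fin 3) (Fin 4) 1, T.Learns famI famL :=
  ⟨fam_automatic, fam_learnable, fam_tellTale, no_learner⟩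

end Pool.Agent.Results.MP_e130ca_lc.NoOneTapeLearner
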